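import Pool.Agent.Helper97.TN.Fin
import Pool.Agent.Helper80.TN.M_R2
import Pool.Agent.Helper71.TN.M_R1
import Pool.Agent.Helper40.TN.M_R5
import Pool.Agent.Helper41.TN.M_R3
import Pool.Agent.Helper72.TN.M_R4
import Pool.Agent.Helper86.TN.M_B0
import Pool.Agent.Helper77.TN.M_B2
import Pool.Agent.Helper78.TN.M_B1

/-!
# The residue formula for the Weil restrictions of elliptic curves to all `S_n`- and `A_n`-fields

`k` a number field, `m ≥ 0`, `f` a cubic polynomial in `x` over `𝓞 k [y_1, .., y_m]`, separable over `k(y_1, .., y_m)`: a family of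
elliptic curves `E_y : z² = f(y,x)` over the base `A^m` (for `m = 0`: an elliptic curve over `k`).  For a finite extension `K/k` of
degree `n` let `X_K → A^m` be the fibration whose fibre over `y` is the Weil restriction `Res_(K/k) E_y`, an abelian variety of
dimension `n` (a twisted form of `E_y^n`).  If the Galois group of the Galois closure of `K/k` is `S_n` or `A_n`, `n ≥ 4`, then the rank
of the Neron-Severi group over `k(y_1, .., y_m)` of its generic fibre is `2`.

THEOREM.  For ALL extensions `K_i/k` of degree `n_i = 2` or `n_i ≥ 4` whose Galois closures have the group `S_(n_i)` (or `A_(n_i)`, if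
`n_i ≥ 6`) and are pairwise different - all degrees together, no linear disjointness -:
`∑_i ((s-2) F_i(s) - 2)² ≤ 8 + ε` for `s > 2` close to `2`, where `F_i` is the function of the problem for `X_(K_i)`.

The proof: Frobenius' density theorem for divisions over `k` (only the pole of the Dedekind zeta functions at `1` is used);
Bessel's inequality for the function `(a_v² - 2 q_v)/q_v`, which is bounded by `2` (exact Weil bound), and the functions
`v ↦ trace of Frobenius on Λ² ℤ[Hom_k(K_i, k̄)]`, which have mean `0`, norm at most `√2`, and are pairwise orthogonal, by the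
structure of the normal subgroups of the symmetric and alternating groups.
-/

set_option autoImplicit false

namespace Pool.Agent.Results.MP_6090f9_nt.WeilRestrictions

open NumberField IsDedekindDomain Polynomial Filter Topology
open scoped Classical

noncomputable section

/-- the primes of the number field `k` -/
abbrev Primes (k : Type) [Field k] [NumberField k] : Type := HeightOneSpectrum (𝓞 k)

/-- the coordinate ring `𝓞 k [y_1, .., y_m]` of the base `A^m` -/
abbrev Base (k : Type) [Field k] [NumberField k] (m : ℕ) : Type := MvPolynomial (Fin m) (𝓞 k)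

/-- the function field `k(y_1, .., y_m)` of the base -/
abbrev FunField (k : Type) [Field k] [NumberField k] (m : ℕ) : Type := FractionRing (Base k m)

/-- the residue field at `v` -/
abbrev Res {k : Type} [Field k] [NumberField k] (v : Primes k) : Type := 𝓞 k ⧸ v.asIdeal

variable {k : Type} [Field k] [NumberField k] {m : ℕ}

/-- the number of elements of the residue field -/
def q (v : Primes k) : ℕ := Ideal.absNorm v.asIdeal

/-- the value of a function on the base at the point `y` over the residue field at `v` -/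
def val (v : Primes k) (y : Fin m → Res v) : Base k m →+* Res v :=
  MvPolynomial.eval₂Hom (Ideal.Quotient.mk v.asIdeal) y

/-- the number of points over the residue field of the smooth projective model of `z² = h(x)` (`h` squarefree, odd
characteristic): the affine points, and at infinity one point if the degree of `h` is odd, and one point for each square
root of the leading coefficient if the degree is even (here only the degree `3` is used) -/
def pts (v : Primes k) (h : (Res v)[X]) : ℕ :=
  Nat.card {z : Res v × Res v // z.2 ^ 2 = h.eval z.1} +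
  if Even h.natDegree then Nat.card {z : Res v // z ^ 2 = h.leadingCoeff} else 1

/-- the trace of Frobenius on `H¹` of the curve `z² = h(x)` -/
def tr (v : Primes k) (h : (Res v)[X]) : ℤ := q v + 1 - pts v h

/-- the fibre `E_y : z² = f(y,x)` is smooth -/
def Smooth (f : (Base k m)[X]) (v : Primes k) (y : Fin m → Res v) : Prop :=
  (f.map (val v y)).natDegree = f.natDegree ∧ Squarefree (f.map (val v y))

/-- the number of primes of degree `j` of the extension `K` of `k` above `v` -/
def np (K : Type) [Field K] [NumberField K] [Algebra k K] (j : ℕ) (v : Primes k) : ℕ :=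
  Nat.card {w : Primes K // w.asIdeal.comap (algebraMap (𝓞 k) (𝓞 K)) = v.asIdeal ∧ q w = q v ^ j}

/-- the trace of Frobenius on `H²(Res_(K/k) E) = Λ²(H¹(E) ⊗ P)`, `P = ℤ[Hom_k(K, k̄)]`, if `a` is the trace of Frobenius on
`H¹(E)` and `n1`, `n2` are the numbers of primes of degree one and two of `K` above `v` (`v` unramified in `K`): it is
`(T² - T₂)/2`, where `T = a n1` and `T₂ = (a² - 2q)(n1 + 2 n2)` are the traces of Frobenius and of its square on `H¹(E) ⊗ P` -/
def trH2 (q a n1 n2 : ℝ) : ℝ := ((a * n1) ^ 2 - (a ^ 2 - 2 * q) * (n1 + 2 * n2)) / 2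

/-- `q_v^(-m)` times the sum over the smooth fibres of the trace of Frobenius on `H²(Res_(K/k) E_y)` -/
def avB (K : Type) [Field K] [NumberField K] [Algebra k K] (f : (Base k m)[X]) (v : Primes k) : ℝ :=
  (∑ᶠ y : Fin m → Res v, if Smooth f v y then
    trH2 (q v) (tr v (f.map (val v y))) (np K 1 v) (np K 2 v) else 0) / (q v : ℝ) ^ m

/-- `b` agrees with `avB K f` up to a bounded function, outside a finite set of primes -/
def Admissible (K : Type) [Field K] [NumberField K] [Algebra k K] (f : (Base k m)[X])
    (b : Primes k → ℝ) : Prop :=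
  ∃ C : ℝ, ∀ᶠ v : Primes k in cofinite, |b v - avB K f v| ≤ C

/-- the function `F` -/
def F (b : Primes k → ℝ) (s : ℝ) : ℝ := ∑' v : Primes k, b v * Real.log (q v) * (q v : ℝ) ^ (-s)

/-- `F` has residue `r` at `s = 2` (along the real axis) -/
def HasRes (b : Primes k → ℝ) (r : ℝ) : Prop :=
  Tendsto (fun s : ℝ => (s - 2) * F b s) (𝓝[>] 2) (𝓝 r)

/-- `exp(∑ b_v q_v^(-s))` has a meromorphic continuation to a neighbourhood of `2` (for `m = 0` this function is `L_2(s)` of the
variety `Res_(K/k) E` up to a function that is holomorphic and nonzero at `2`) -/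
def Continues (b : Primes k → ℝ) : Prop :=
  ∃ G : ℂ → ℂ, MeromorphicAt G 2 ∧
    ∀ᶠ s : ℝ in 𝓝[>] 2, G s = ((Real.exp (∑' v : Primes k, b v * (q v : ℝ) ^ (-s)) : ℝ) : ℂ)

/-- the permutation `π` of the set of embeddings of `K` into `k̄` over `k` is induced by an automorphism of `k̄` over `k`, that
is, it belongs to the Galois group of the Galois closure of `K/k` as a permutation group -/
def Induced (k K : Type) [Field k] [NumberField k] [Field K] [NumberField K] [Algebra k K]
    (π : Equiv.Perm (K →ₐ[k] AlgebraicClosure k)) : Prop :=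
  ∃ g : AlgebraicClosure k ≃ₐ[k] AlgebraicClosure k, ∀ (x : K →ₐ[k] AlgebraicClosure k) (z : K),
    g (x z) = π x z

/-- `K/k` has degree `n = 2` or `n ≥ 4` and the Galois group of its Galois closure is `S_n`, or `n ≥ 6` and it contains `A_n` -/
def IsSnAn (k K : Type) [Field k] [NumberField k] [Field K] [NumberField K] [Algebra k K] : Prop :=
  ((Module.finrank k K = 2 ∨ 4 ≤ Module.finrank k K) ∧ ∀ π, Induced k K π) ∨
  (6 ≤ Module.finrank k K ∧ ∀ π, Equiv.Perm.sign π = 1 → Induced k K π)

/-- `K` and `K'` have the same Galois closure in `k̄`: the automorphisms that are trivial on all conjugates of `K` are those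
that are trivial on all conjugates of `K'` -/
def SameClosure (k K K' : Type) [Field k] [NumberField k] [Field K] [NumberField K] [Field K']
    [NumberField K'] [Algebra k K] [Algebra k K'] : Prop :=
  ∀ g : AlgebraicClosure k ≃ₐ[k] AlgebraicClosure k,
    (∀ (x : K →ₐ[k] AlgebraicClosure k) (z : K), g (x z) = x z) ↔
      ∀ (x : K' →ₐ[k] AlgebraicClosure k) (z : K'), g (x z) = x z

/-! ## Proof -/

theorem avB_eq (K : Type) [Field K] [NumberField K] [Algebra k K] (f : (Base k m)[X])
    (v : Primes k) : avB K f v = Pool.Agent.Helper97.TN.BN f v (Pool.Agent.Helper97.TN.NN K 1 v)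
      ((Pool.Agent.Helper97.TN.NN K 1 v : ℝ) + 2 * (Pool.Agent.Helper97.TN.NN K 2 v : ℝ)) := rfl

/-- **Theorem.**  Let `k` be a number field, `m ≥ 0`, `f` a cubic polynomial over `𝓞 k [y_1, .., y_m]`, separable over
`k(y_1, .., y_m)`, and `K_i` a family (finite or infinite) of extensions of `k` of degree `n_i = 2` or `n_i ≥ 4` such that the Galois
groups of their Galois closures are `S_(n_i)` (or `A_(n_i)`, for `n_i ≥ 6`), and the Galois closures are pairwise different; `b_i`
admissible for the Weil restriction to `K_i/k`.  Then (1) the series `F` converges for `s > 2`; (2) for every finite set `S` of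
indices and `ε > 0`: `∑_(i ∈ S) ((s-2) F_i(s) - 2)² ≤ 8 + ε` for all `s > 2` close to `2`; (3) if `(s-2) F_i(s) → r_i` for `i ∈ S` along
a filter `l` finer than that of the right neighbourhoods of `2` then `∑_(i ∈ S) (r_i - 2)² ≤ 8`; (4) among the `i` for which
`exp(∑ b_v q_v^(-s))` is meromorphic at `2`, all but at most `8` have residue exactly `2`. -/
theorem result (k : Type) [Field k] [NumberField k] (m : ℕ) (f : (Base k m)[X])
    (hf : f.natDegree = 3) (hfs : (f.map (algebraMap (Base k m) (FunField k m))).Separable)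
    (ι : Type) (K : ι → Type) [∀ i, Field (K i)] [∀ i, NumberField (K i)] [∀ i, Algebra k (K i)]
    (hK : ∀ i, IsSnAn k (K i)) (hKK : ∀ i j, i ≠ j → ¬ SameClosure k (K i) (K j))
    (b : ι → Primes k → ℝ) (hb : ∀ i, Admissible (K i) f (b i)) :
    (∀ i, ∀ s : ℝ, 2 < s →
      Summable (fun v : Primes k => b i v * Real.log (q v) * (q v : ℝ) ^ (-s))) ∧
    (∀ (S : Finset ι), ∀ ε > 0, ∀ᶠ s : ℝ in 𝓝[>] 2,
      ∑ i ∈ S, ((s - 2) * F (b i) s - 2) ^ 2 ≤ 8 + ε) ∧
    (∀ (l : Filter ℝ), l.NeBot → l ≤ 𝓝[>] 2 → ∀ (S : Finset ι) (r : ι → ℝ),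
      (∀ i ∈ S, Tendsto (fun s : ℝ => (s - 2) * F (b i) s) l (𝓝 (r i))) →
      ∑ i ∈ S, (r i - 2) ^ 2 ≤ 8) ∧
    ({i | Continues (b i) ∧ ¬ HasRes (b i) 2}.Finite ∧
      {i | Continues (b i) ∧ ¬ HasRes (b i) 2}.ncard ≤ 8) := by
  have h8 : (√8 : ℝ) ^ 2 = 8 := Real.sq_sqrt (by norm_num)
  have hB2 := Pool.Agent.Helper77.TN.hB2 Pool.Agent.Helper70.TN.hP4 Pool.Agent.Helper78.TN.hB1
  have hm := Pool.Agent.Helper47.TK.fam (k := k) b (fun i v => avB (K i) f v) 2 (√8) hb
    (fun S C R hR hbS => by
      have h := Pool.Agent.Helper97.TN.finite_form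
        (Pool.Agent.Helper41.TN.hR3 Pool.Agent.Helper97.TN.tG3 Pool.Agent.Helper97.TN.tM1
          Pool.Agent.Helper97.TN.tM2 Pool.Agent.Helper71.TN.hR1 Pool.Agent.Helper80.TN.hR2)
        (Pool.Agent.Helper72.TN.hR4 hB2) Pool.Agent.Helper40.TN.hR5 Pool.Agent.Helper86.TN.hB0
        k m f hf hfs S (fun i => K i) (fun i => hK i)
        (fun i j hij => by
          have h1 := hKK i j fun h => hij (Subtype.ext h)
          unfold SameClosure at h1
          push Not at h1
          obtain ⟨g, hg⟩ := h1
          exact ⟨g, fun h2 => by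
            rcases hg with ⟨h3, x, z, h4⟩ | ⟨⟨x, z, h3⟩, h4⟩
            · exact h4 (h2.1 h3 x z)
            · exact h3 (h2.2 h4 x z)⟩) C R hR (fun i => b i) hbS
      refine ⟨fun i s hs => h.1 s hs i, fun ε hε => ?_⟩
      rw [h8]
      exact h.2 ε hε)
  have h3 := Pool.Agent.Helper47.TK.final4 (k := k) b 2 (√8) hm.1 (by
    intro S ε hε
    exact_mod_cast hm.2 S ε hε)
  rw [h8] at h3
  refine ⟨hm.1, ?_, ?_, ?_⟩
  · intro S ε hε
    have h4 := hm.2 S ε hε
    rw [h8] at h4
    exact h4
  · intro l hl hl2 S r hr
    have h4 := h3.1 l hl hl2 S r hr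
    exact_mod_cast h4
  · have h4 := h3.2
    refine ⟨?_, ?_⟩
    · exact_mod_cast h4.1
    · exact_mod_cast h4.2

end

end Pool.Agent.Results.MP_6090f9_nt.WeilRestrictions
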